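import Pool.Agent.Q116.IU.Main

/-!
Invariant universality is not inherited by Borel reducible equivalence subrelations.
-/

set_option autoImplicit false

namespace Pool.Agent.Results.MP_930073_lc.NotInherited

open Pool.Agent.Q116.IU

theorem result : ∃ (X : Type) (_ : MeasurableSpace X) (_ : StandardBorelSpace X)
    (S E F : X → X → Prop), AnalyticQO S ∧ AnalyticEq E ∧ AnalyticEq F ∧
      (∀ x y, E x y ↔ S x y ∧ S y x) ∧ (∀ x y, F x y → S x y ∧ S y x) ∧
      BRed E F ∧ InvUniv S F ∧ ¬ InvUniv S E :=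
  ⟨X, inferInstance, inferInstance, S, E, F, S_qo, E_eq, F_eq, fun _ _ => Iff.rfl,
    fun _ _ h => F_sub h, E_red_F, univ_F, not_univ_E⟩

end Pool.Agent.Results.MP_930073_lc.NotInherited
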